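import Pool.Agent.H613T.LinCov10

/-!
# `f(r)` is an infimum over single linear covering codes

`f r` is the function of the frozen statement (`Pool.Prelude.Def_F_7905cbea`): the liminf over `n` of
the least value of `|V| |H(r)| / 2^n` over the linear subspaces `V` of `F_2^n` with
`V + H(r) = F_2^n`.

Proof of `≤`. Take the `n` columns of a parity check matrix of `V` and `r` zero columns: every
syndrome is the sum of exactly `r` of these `n + r` columns. Over `F_q`, `q = 2^J ≥ n + r`, replace
the column `a_i` by the `q` columns `(a_i, x, β_i x, ..., β_i^(r-1) x)`, the `β_i` being distinct; by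
the Vandermonde determinant every element is again the sum of exactly `r` columns, and
`(number of columns)^r / (number of elements)` is unchanged as `J → ∞`.
-/

set_option autoImplicit false

namespace Pool.Agent.Results.MP_f8d60a_co.SingleCodes

open N8b55e67f Filter

/-- For every `r ≥ 1`, `f(r)` is the infimum of `(n + r)^r |V| / (r! 2^n)` over all `n` and all linear
subspaces `V` of `F_2^n` with `V + H(r) = F_2^n`; and `f(r) = 1` if and only if for every `ε > 0` there
is one such `V` with `(n + r)^r |V| < (1 + ε) r! 2^n`. -/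
theorem result (r : ℕ) (hr : 1 ≤ r) :
    (f r = ⨅ (n : ℕ) (V : Submodule (ZMod 2) (Fin n → ZMod 2)) (_ : IsCoveringSubspace n r V),
      ENNReal.ofReal (((n : ℝ) + r) ^ r * Nat.card V / (r.factorial * 2 ^ n))) ∧
    (f r = 1 ↔ ∀ ε : ℝ, 0 < ε → ∃ (n : ℕ) (V : Submodule (ZMod 2) (Fin n → ZMod 2)),
      IsCoveringSubspace n r V ∧
        ((n : ℝ) + r) ^ r * Nat.card V < (1 + ε) * (r.factorial * 2 ^ n)) := by
  have hf := Pool.Agent.H613T.LC.f_eq r hr
  refine ⟨hf, fun h ε hε => ?_, fun h => ?_⟩
  · rw [h] at hf
    have h1 : (⨅ (n : ℕ) (V : Submodule (ZMod 2) (Fin n → ZMod 2)) (_ : IsCoveringSubspace n r V),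
        ENNReal.ofReal (((n : ℝ) + r) ^ r * Nat.card V / (r.factorial * 2 ^ n)))
        < ENNReal.ofReal (1 + ε) := by
      rw [← hf, ← ENNReal.ofReal_one]
      exact (ENNReal.ofReal_lt_ofReal_iff (by linarith)).mpr (by linarith)
    simp only [iInf_lt_iff] at h1
    obtain ⟨n, V, hV, h2⟩ := h1
    rw [ENNReal.ofReal_lt_ofReal_iff (by linarith)] at h2
    refine ⟨n, V, hV, ?_⟩
    rwa [div_lt_iff₀ (by positivity)] at h2
  · refine le_antisymm ?_ ?_
    · refine ENNReal.le_of_forall_pos_le_add fun η hη _ => ?_
      obtain ⟨n, V, hV, h2⟩ := h η (by exact_mod_cast hη)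
      have h3 := Pool.Agent.H613T.LC.f_le_code n r hr V hV
      refine h3.trans ?_
      have h4 : ((n : ℝ) + r) ^ r * Nat.card V / (r.factorial * 2 ^ n) ≤ 1 + (η : ℝ) := by
        rw [div_le_iff₀ (by positivity)]; exact h2.le
      refine (ENNReal.ofReal_le_ofReal h4).trans (le_of_eq ?_)
      rw [ENNReal.ofReal_add zero_le_one (by positivity)]
      simp
    · unfold f
      refine Filter.le_liminf_of_le (by isBoundedDefault) ?_
      exact Filter.Eventually.of_forall fun n => Pool.Agent.H613T.LC.one_le_minDensity n r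

end Pool.Agent.Results.MP_f8d60a_co.SingleCodes
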